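import Pool.Agent.TH294.RW.Fib
import Mathlib.Probability.ProductMeasure

/-!
# Infinite systems of particles carrying marks, driven by a multiply mixing environment
-/

set_option autoImplicit false

namespace Pool.Agent.TH294.RW

open MeasureTheory Filter Topology H567MM Pool.Agent.TH294.RK

section

variable {E Ω : Type*}

/-- move the marks along `p` and transform them by `a` -/
def mv (p : Equiv.Perm E) (a : E → Ω → Ω) (w : E → Ω) : E → Ω :=
  fun e => a (p.symm e) (w (p.symm e))

theorem indep_boxes [MeasurableSpace Ω] (ρ : Measure Ω) [IsProbabilityMeasure ρ] {r : ℕ}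
    (p : Fin r → Equiv.Perm E) (a : Fin r → E → Ω → Ω)
    (ha : ∀ j e, MeasurePreserving (a j e) ρ ρ) (s : Fin r → Finset E) (t : Fin r → E → Set Ω)
    (ht : ∀ j e, MeasurableSet (t j e))
    (hd : ∀ i j, i < j → ∀ e ∈ s i, ∀ f ∈ s j, (p i).symm e ≠ (p j).symm f) :
    (Measure.infinitePi fun _ : E => ρ)
      (⋂ j, mv (p j) (a j) ⁻¹' (Set.pi (s j : Set E) (t j))) =
      ∏ j, ∏ e ∈ s j, ρ (t j e) := by
  classical
  set I : Fin r → Finset E := fun j => (s j).map (p j).symm.toEmbedding with hI
  set U : Finset E := Finset.univ.biUnion I with hU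
  set b : E → Set Ω := fun f => ⋂ j : Fin r, ⋂ (_ : f ∈ I j), a j f ⁻¹' t j (p j f) with hb
  have hbm : ∀ f, MeasurableSet (b f) := fun f =>
    MeasurableSet.iInter fun j => MeasurableSet.iInter fun _ => (ha j f).measurable (ht j _)
  have hset : (⋂ j, mv (p j) (a j) ⁻¹' (Set.pi (s j : Set E) (t j))) = Set.pi (U : Set E) b := by
    ext w
    simp only [Set.mem_iInter, Set.mem_preimage, Set.mem_pi, Finset.mem_coe, mv, hU, hb,
      Finset.mem_biUnion, Finset.mem_univ, true_and, forall_exists_index]
    constructor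
    · intro h f _ _ j hf
      rw [hI] at hf
      simp only [Finset.mem_map, Equiv.coe_toEmbedding] at hf
      obtain ⟨e, he, rfl⟩ := hf
      simpa using h j e he
    · intro h j e he
      have hmem : (p j).symm e ∈ I j := by
        rw [hI]
        simp only [Finset.mem_map, Equiv.coe_toEmbedding]
        exact ⟨e, he, rfl⟩
      simpa using h _ j hmem j hmem
  have hdisj : ∀ i j, i ≠ j → Disjoint (I i) (I j) := by
    intro i j hij
    rw [Finset.disjoint_left]
    intro f hf1 hf2
    rw [hI] at hf1 hf2
    simp only [Finset.mem_map, Equiv.coe_toEmbedding] at hf1 hf2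
    obtain ⟨e1, he1, h1⟩ := hf1
    obtain ⟨e2, he2, h2⟩ := hf2
    rcases lt_or_gt_of_ne hij with h | h
    · exact hd i j h e1 he1 e2 he2 (h1.trans h2.symm)
    · exact hd j i h e2 he2 e1 he1 (h2.trans h1.symm)
  rw [hset, Measure.infinitePi_pi _ (fun f _ => hbm f), hU, Finset.prod_biUnion
    (fun i _ j _ hij => hdisj i j hij)]
  refine Finset.prod_congr rfl fun j _ => ?_
  rw [hI, Finset.prod_map]
  refine Finset.prod_congr rfl fun e he => ?_
  have hmem : (p j).symm e ∈ I j := by
    rw [hI]
    simp only [Finset.mem_map, Equiv.coe_toEmbedding]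
    exact ⟨e, he, rfl⟩
  have h1 : b ((p j).symm e) = a j ((p j).symm e) ⁻¹' t j e := by
    rw [hb]
    ext w
    simp only [Set.mem_iInter, Set.mem_preimage]
    constructor
    · intro h
      simpa using h j hmem
    · intro h i hi
      by_cases hij : i = j
      · subst hij
        simpa using h
      · exact absurd hmem (Finset.disjoint_left.1 (hdisj i j hij) hi)
  rw [Equiv.coe_toEmbedding, h1, (ha j _).measure_preimage (ht j e).nullMeasurableSet]

theorem mv_meas [Countable E] [MeasurableSpace Ω] (p : Equiv.Perm E) (a : E → Ω → Ω)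
    (ha : ∀ e, Measurable (a e)) : Measurable (mv p a) :=
  measurable_pi_iff.2 fun e => (ha _).comp (measurable_pi_apply _)

theorem mv_mp [Countable E] [MeasurableSpace Ω] (ρ : Measure Ω) [IsProbabilityMeasure ρ]
    (p : Equiv.Perm E) (a : E → Ω → Ω) (ha : ∀ e, MeasurePreserving (a e) ρ ρ) :
    MeasurePreserving (mv p a) (Measure.infinitePi fun _ : E => ρ)
      (Measure.infinitePi fun _ : E => ρ) := by
  refine ⟨mv_meas p a fun e => (ha e).measurable, ?_⟩
  refine Measure.eq_infinitePi _ fun s t ht => ?_
  rw [Measure.map_apply (mv_meas p a fun e => (ha e).measurable)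
    (MeasurableSet.pi s.countable_toSet fun _ _ => ht _)]
  have := indep_boxes ρ (fun _ : Fin 1 => p) (fun _ => a) (fun _ e => ha e) (fun _ => s)
    (fun _ => t) (fun _ e => ht e) (fun i j hij => by omega)
  rw [Set.iInter_const, Fin.prod_univ_one] at this
  exact this

variable {X : Type*} (S : X → X) (π : X → Equiv.Perm E) (α : X → E → Ω → Ω)

/-- the position at time `n` of the particles -/
def pos : ℕ → X → Equiv.Perm E
  | 0, _ => 1
  | n + 1, x => π (S^[n] x) * pos n x

/-- the transformation undergone until time `n` by the mark of the particle started at `f` -/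
def mk : ℕ → X → E → Ω → Ω
  | 0, _, _ => id
  | n + 1, x, f => α (S^[n] x) (pos S π n x f) ∘ mk n x f

theorem pos_add (m n : ℕ) (x : X) :
    pos S π (m + n) x = pos S π m (S^[n] x) * pos S π n x := by
  induction m with
  | zero => rw [Nat.zero_add]; simp [pos]
  | succ m ih =>
    rw [show m + 1 + n = (m + n) + 1 by omega, pos, ih, pos, mul_assoc,
      Function.iterate_add_apply]

theorem walk_pos (n : ℕ) (x : X) (e : E) :
    (fun z : X × E => (S z.1, π z.1 z.2))^[n] (x, e) = (S^[n] x, pos S π n x e) := by
  induction n with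
  | zero => rfl
  | succ n ih =>
    rw [Function.iterate_succ_apply', ih, Function.iterate_succ_apply', pos, Equiv.Perm.mul_apply]

theorem part_eq (n : ℕ) (x : X) (w : E → Ω) :
    (fun z : X × (E → Ω) => (S z.1, mv (π z.1) (α z.1) z.2))^[n] (x, w) =
      (S^[n] x, mv (pos S π n x) (mk S π α n x) w) := by
  induction n with
  | zero => rfl
  | succ n ih =>
    rw [Function.iterate_succ_apply', ih, Function.iterate_succ_apply']
    refine Prod.ext rfl ?_
    funext e
    simp only [mv, pos, mk, Function.comp_apply]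
    rw [Equiv.Perm.mul_def, Equiv.symm_trans_apply, Equiv.apply_symm_apply]

theorem mk_mp [MeasurableSpace Ω] (ρ : Measure Ω)
    (hα : ∀ x e, MeasurePreserving (α x e) ρ ρ) (n : ℕ) (x : X) (e : E) :
    MeasurePreserving (mk S π α n x e) ρ ρ := by
  induction n with
  | zero => exact MeasurePreserving.id ρ
  | succ n ih => exact (hα _ _).comp ih

theorem meas_pos [Countable E] [MeasurableSpace X] (μ : Measure X) (hS : MeasurePreserving S μ μ)
    (hπ : ∀ e f, MeasurableSet {x | π x e = f}) (n : ℕ) (e f : E) :
    MeasurableSet {x | pos S π n x e = f} := by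
  induction n generalizing f with
  | zero => simp [pos]
  | succ n ih =>
    have : {x | pos S π (n + 1) x e = f} =
        ⋃ h : E, (S^[n] ⁻¹' {x | π x h = f}) ∩ {x | pos S π n x e = h} := by
      ext x
      simp only [Set.mem_ofPred_eq, Set.mem_iUnion, Set.mem_inter_iff, Set.mem_preimage, pos,
        Equiv.Perm.mul_apply]
      constructor
      · intro h
        exact ⟨pos S π n x e, h, rfl⟩
      · rintro ⟨h, h1, h2⟩
        rw [h2, h1]
    rw [this]
    exact MeasurableSet.iUnion fun h => ((hS.iterate n).measurable (hπ _ _)).inter (ih h)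

theorem part_mp [Countable E] [MeasurableSpace X] [MeasurableSpace Ω] (μ : Measure X)
    [IsProbabilityMeasure μ] (ρ : Measure Ω) [IsProbabilityMeasure ρ]
    (hS : MeasurePreserving S μ μ) (hπ : ∀ e f, MeasurableSet {x | π x e = f})
    (hαm : ∀ e, Measurable fun z : X × Ω => α z.1 e z.2)
    (hα : ∀ x e, MeasurePreserving (α x e) ρ ρ) :
    MeasurePreserving (fun z : X × (E → Ω) => (S z.1, mv (π z.1) (α z.1) z.2))
      (μ.prod (Measure.infinitePi fun _ : E => ρ))
      (μ.prod (Measure.infinitePi fun _ : E => ρ)) := by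
  refine hS.skew_product (g := fun x w => mv (π x) (α x) w) ?_
    (Eventually.of_forall fun x => (mv_mp ρ (π x) (α x) (hα x)).map_eq)
  refine measurable_pi_iff.2 fun e => ?_
  intro s hs
  have : (fun z : X × (E → Ω) => (Function.uncurry fun x w => mv (π x) (α x) w) z e) ⁻¹' s =
      ⋃ f : E, (Prod.fst ⁻¹' {x | π x f = e}) ∩
        ((fun z : X × (E → Ω) => α z.1 f (z.2 f)) ⁻¹' s) := by
    ext ⟨x, w⟩
    simp only [Set.mem_preimage, Function.uncurry_apply_pair, Set.mem_iUnion, Set.mem_inter_iff,
      Set.mem_ofPred_eq, mv]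
    constructor
    · intro h
      exact ⟨(π x).symm e, by simp, h⟩
    · rintro ⟨f, h1, h2⟩
      rw [← h1]
      simpa using h2
  rw [this]
  refine MeasurableSet.iUnion fun f => (measurable_fst (hπ f e)).inter ?_
  exact ((hαm f).comp (measurable_fst.prodMk ((measurable_pi_apply f).comp measurable_snd))) hs

theorem part_mix [Countable E] [MeasurableSpace X] [MeasurableSpace Ω] (μ : Measure X)
    [IsProbabilityMeasure μ] (ρ : Measure Ω) [IsProbabilityMeasure ρ]
    (hS : MeasurePreserving S μ μ) (hπ : ∀ e f, MeasurableSet {x | π x e = f})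
    (hαm : ∀ e, Measurable fun z : X × Ω => α z.1 e z.2)
    (hα : ∀ x e, MeasurePreserving (α x e) ρ ρ) (k : ℕ) (hk : MixOrd μ S k)
    (hret : ∀ e f, Tendsto (fun n => μ.real {x | pos S π n x e = f}) atTop (𝓝 0)) :
    MixOrd (μ.prod (Measure.infinitePi fun _ : E => ρ))
      (fun z : X × (E → Ω) => (S z.1, mv (π z.1) (α z.1) z.2)) k := by
  classical
  set C : Set (Set (E → Ω)) := squareCylinders fun _ : E => {s : Set Ω | MeasurableSet s} with hC
  refine fibre_mix μ _ S hS _ (part_mp S π α μ ρ hS hπ hαm hα) (fun z => rfl) k hk C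
    (generateFrom_squareCylinders (α := fun _ : E => Ω)) (isPiSystem_squareCylinders (fun _ => MeasurableSpace.isPiSystem_measurableSet)
      (fun _ => MeasurableSet.univ)) ?_ ?_ ?_
  · exact ⟨∅, fun _ => Set.univ, fun _ _ => MeasurableSet.univ, by simp⟩
  · intro s hs
    obtain ⟨u, t, ht, rfl⟩ := hs
    exact MeasurableSet.pi u.countable_toSet fun e he => by simpa using ht e (by simp)
  · intro B hB ε hε
    choose u t ht hBe using hB
    have ht' : ∀ j e, MeasurableSet (t j e) := fun j e => by simpa using ht j e (by simp)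
    refine ⟨fun n => ⋃ i : Fin (k + 1), ⋃ j : Fin (k + 1), ⋃ (_ : i < j),
      ⋃ q ∈ (u i) ×ˢ (u j), S^[n i] ⁻¹' {x | pos S π (n j - n i) x q.1 = q.2}, ?_, ?_, ?_⟩
    · intro n
      refine MeasurableSet.iUnion fun i => MeasurableSet.iUnion fun j => MeasurableSet.iUnion
        fun _ => Finset.measurableSet_biUnion _ fun g _ =>
          (hS.iterate _).measurable (meas_pos S π μ hS hπ _ _ _)
    · have hb : ∀ n : Fin (k + 1) → ℕ, μ.real (⋃ i : Fin (k + 1), ⋃ j : Fin (k + 1),
          ⋃ (_ : i < j), ⋃ q ∈ (u i) ×ˢ (u j),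
            S^[n i] ⁻¹' {x | pos S π (n j - n i) x q.1 = q.2}) ≤
          ∑ i : Fin (k + 1), ∑ j : Fin (k + 1), if i < j then ∑ q ∈ (u i) ×ˢ (u j),
            μ.real {x | pos S π (n j - n i) x q.1 = q.2} else 0 := by
        intro n
        refine (measureReal_iUnion_fintype_le _).trans (Finset.sum_le_sum fun i _ => ?_)
        refine (measureReal_iUnion_fintype_le _).trans (Finset.sum_le_sum fun j _ => ?_)
        by_cases hij : i < j
        · rw [if_pos hij]
          simp only [hij, Set.iUnion_true]
          refine (measureReal_biUnion_finset_le _ _).trans (Finset.sum_le_sum fun g _ => ?_)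
          rw [(hS.iterate (n i)).measureReal_preimage
            (meas_pos S π μ hS hπ _ _ _).nullMeasurableSet]
        · rw [if_neg hij]
          simp only [hij, Set.iUnion_false, measureReal_empty, le_refl]
      have hlim : Tendsto (fun n : Fin (k + 1) → ℕ =>
          ∑ i : Fin (k + 1), ∑ j : Fin (k + 1), if i < j then ∑ q ∈ (u i) ×ˢ (u j),
            μ.real {x | pos S π (n j - n i) x q.1 = q.2} else 0) (gapF (k + 1))
          (𝓝 (∑ i : Fin (k + 1), ∑ j : Fin (k + 1),
            if i < j then ∑ q ∈ (u i) ×ˢ (u j), (0 : ℝ) else 0)) := by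
        refine tendsto_finsetSum _ fun i _ => tendsto_finsetSum _ fun j _ => ?_
        by_cases hij : i < j
        · simp only [if_pos hij]
          refine tendsto_finsetSum _ fun q _ => ?_
          refine (hret q.1 q.2).comp ?_
          rw [(hasBasis_gapF (k + 1)).tendsto_iff atTop_basis]
          intro N _
          refine ⟨N, trivial, fun n hn => ?_⟩
          have := hn i j hij
          simp only [Set.mem_Ici]
          omega
        · simp only [if_neg hij]
          exact tendsto_const_nhds
      simp only [Finset.sum_const_zero, ite_self] at hlim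
      exact squeeze_zero (fun n => measureReal_nonneg) hb hlim
    · refine eventually_gapF.2 ⟨0, fun n hn x hx => ?_⟩
      simp only [Set.mem_iUnion, Set.mem_preimage, not_exists, Set.mem_ofPred_eq,
        Finset.mem_product] at hx
      have h1 : {w : E → Ω | ∀ j, ((fun z : X × (E → Ω) =>
          (S z.1, mv (π z.1) (α z.1) z.2))^[n j] (x, w)).2 ∈ B j} =
          ⋂ j, mv (pos S π (n j) x) (mk S π α (n j) x) ⁻¹' (Set.pi (u j : Set E) (t j)) := by
        ext w
        simp only [Set.mem_ofPred_eq, Set.mem_iInter, Set.mem_preimage, part_eq, hBe]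
      have h2 := indep_boxes ρ (fun j : Fin (k + 1) => pos S π (n j) x)
        (fun j => mk S π α (n j) x) (fun j e => mk_mp S π α ρ hα (n j) x e) u t ht' (by
          intro i j hij e he f hf heq
          have hle := hn i j hij
          have h3 : pos S π (n j) x = pos S π (n j - n i) (S^[n i] x) * pos S π (n i) x := by
            have := pos_add S π (n j - n i) (n i) x
            rwa [Nat.sub_add_cancel (by omega)] at this
          refine hx i j hij (e, f) ⟨he, hf⟩ ?_
          have h4 : pos S π (n j) x ((pos S π (n i) x).symm e) = f := by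
            rw [heq]
            simp
          rw [h3, Equiv.Perm.mul_apply, Equiv.apply_symm_apply] at h4
          exact h4)
      have h5 : ∀ j, (Measure.infinitePi fun _ : E => ρ) (B j) = ∏ e ∈ u j, ρ (t j e) := by
        intro j
        rw [hBe j, Measure.infinitePi_pi _ (fun e _ => ht' j e)]
      rw [h1, measureReal_def, h2]
      simp only [measureReal_def, h5]
      rw [ENNReal.toReal_prod, sub_self, abs_zero]
      exact hε.le

/-- conversely, mixing implies dispersion if the marks do not move -/
theorem part_ret [Countable E] [MeasurableSpace X] [MeasurableSpace Ω] (μ : Measure X)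
    [IsProbabilityMeasure μ] (ρ : Measure Ω) [IsProbabilityMeasure ρ]
    (hS : MeasurePreserving S μ μ) (hπ : ∀ e f, MeasurableSet {x | π x e = f})
    (C : Set Ω) (hC : MeasurableSet C) (h0 : 0 < ρ.real C) (h1 : ρ.real C < 1)
    (hk : MixOrd (μ.prod (Measure.infinitePi fun _ : E => ρ))
      (fun z : X × (E → Ω) => (S z.1, mv (π z.1) (fun _ => id) z.2)) 1) (e f : E) :
    Tendsto (fun n => μ.real {x | pos S π n x e = f}) atTop (𝓝 0) := by
  classical
  set ν := Measure.infinitePi fun _ : E => ρ with hν
  rw [MP_aux_iff] at hk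
  have hev : ∀ e : E, MeasurableSet ((fun w : E → Ω => w e) ⁻¹' C) := fun e =>
    measurable_pi_apply e hC
  have hval : ∀ e : E, ν.real ((fun w : E → Ω => w e) ⁻¹' C) = ρ.real C := by
    intro e
    exact (measurePreserving_eval_infinitePi (fun _ : E => ρ) e).measureReal_preimage
      hC.nullMeasurableSet
  have hval2 : ∀ e f : E, e ≠ f → ν.real (((fun w : E → Ω => w e) ⁻¹' C) ∩
      ((fun w : E → Ω => w f) ⁻¹' C)) = ρ.real C * ρ.real C := by
    intro e f hef
    have e1 : (((fun w : E → Ω => w e) ⁻¹' C) ∩ ((fun w : E → Ω => w f) ⁻¹' C)) =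
        Set.pi (({e, f} : Finset E) : Set E) (fun _ => C) := by
      ext w
      simp
    rw [measureReal_def, e1, hν, Measure.infinitePi_pi _ (fun _ _ => hC),
      Finset.prod_pair hef, ENNReal.toReal_mul]
    rfl
  have h2 := hk (Set.univ ×ˢ ((fun w : E → Ω => w e) ⁻¹' C))
    (Set.univ ×ˢ ((fun w : E → Ω => w f) ⁻¹' C)) (MeasurableSet.univ.prod (hev e))
    (MeasurableSet.univ.prod (hev f))
  rw [measureReal_prod_prod, measureReal_prod_prod, hval, hval] at h2
  simp only [probReal_univ, one_mul] at h2
  have hmk : ∀ n x (e : E), mk S π (fun _ _ => (id : Ω → Ω)) n x e = id := by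
    intro n x e
    induction n with
    | zero => rfl
    | succ n ih => rw [mk, ih]; rfl
  have key : ∀ n, (μ.prod ν).real ((Set.univ ×ˢ ((fun w : E → Ω => w e) ⁻¹' C)) ∩
      (fun z : X × (E → Ω) => (S z.1, mv (π z.1) (fun _ => id) z.2))^[n] ⁻¹'
        (Set.univ ×ˢ ((fun w : E → Ω => w f) ⁻¹' C))) =
      ρ.real C * ρ.real C + μ.real {x | pos S π n x e = f} * (ρ.real C - ρ.real C * ρ.real C) := by
    intro n
    have hm := meas_pos S π μ hS hπ n e f
    set Q := {x | pos S π n x e = f} with hQ
    have hT := (part_mp S π (fun _ _ => (id : Ω → Ω)) μ ρ hS hπ (fun _ => measurable_snd)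
      (fun _ _ => MeasurePreserving.id ρ)).iterate n
    have hmeas : MeasurableSet ((Set.univ ×ˢ ((fun w : E → Ω => w e) ⁻¹' C)) ∩
      (fun z : X × (E → Ω) => (S z.1, mv (π z.1) (fun _ => id) z.2))^[n] ⁻¹'
        (Set.univ ×ˢ ((fun w : E → Ω => w f) ⁻¹' C))) :=
      (MeasurableSet.univ.prod (hev e)).inter (hT.measurable (MeasurableSet.univ.prod (hev f)))
    rw [measureReal_def, Measure.prod_apply hmeas]
    have hsec : ∀ x, ν (Prod.mk x ⁻¹' ((Set.univ ×ˢ ((fun w : E → Ω => w e) ⁻¹' C)) ∩
      (fun z : X × (E → Ω) => (S z.1, mv (π z.1) (fun _ => id) z.2))^[n] ⁻¹'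
        (Set.univ ×ˢ ((fun w : E → Ω => w f) ⁻¹' C)))) =
        ENNReal.ofReal (Q.indicator (fun _ => ρ.real C) x +
          Qᶜ.indicator (fun _ => ρ.real C * ρ.real C) x) := by
      intro x
      have e1 : Prod.mk x ⁻¹' ((Set.univ ×ˢ ((fun w : E → Ω => w e) ⁻¹' C)) ∩
          (fun z : X × (E → Ω) => (S z.1, mv (π z.1) (fun _ => id) z.2))^[n] ⁻¹'
          (Set.univ ×ˢ ((fun w : E → Ω => w f) ⁻¹' C))) =
          ((fun w : E → Ω => w e) ⁻¹' C) ∩
            ((fun w : E → Ω => w ((pos S π n x).symm f)) ⁻¹' C) := by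
        ext w
        simp only [Set.mem_preimage, Set.mem_inter_iff, Set.mem_prod, Set.mem_univ, true_and]
        have := part_eq S π (fun _ _ => (id : Ω → Ω)) n x w
        rw [this]
        simp only [mv, hmk, id]
      rw [e1]
      by_cases hx : x ∈ Q
      · have hx' : pos S π n x e = f := hx
        rw [Set.indicator_of_mem hx, Set.indicator_of_notMem (by simpa using hx), add_zero,
          ← hx', Equiv.symm_apply_apply, Set.inter_self, ← hval e, ofReal_measureReal]
      · have hx' : ¬ pos S π n x e = f := hx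
        rw [Set.indicator_of_notMem hx, Set.indicator_of_mem (by simpa using hx), zero_add,
          ← hval2 e ((pos S π n x).symm f) (by
            intro h
            apply hx'
            rw [h]
            simp), ofReal_measureReal]
    simp only [hsec]
    have hint : Integrable (fun x => Q.indicator (fun _ => ρ.real C) x +
          Qᶜ.indicator (fun _ => ρ.real C * ρ.real C) x) μ :=
      ((integrable_const _).indicator hm).add ((integrable_const _).indicator hm.compl)
    rw [← integral_eq_lintegral_of_nonneg_ae (Eventually.of_forall fun x =>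
      add_nonneg (Set.indicator_nonneg (fun _ _ => h0.le) x)
        (Set.indicator_nonneg (fun _ _ => (mul_pos h0 h0).le) x)) hint.aestronglyMeasurable,
      integral_add ((integrable_const _).indicator hm) ((integrable_const _).indicator hm.compl),
      integral_indicator hm, integral_indicator hm.compl, setIntegral_const, setIntegral_const,
      smul_eq_mul, smul_eq_mul, probReal_compl_eq_one_sub hm]
    ring
  simp only [key] at h2
  set d := ρ.real C - ρ.real C * ρ.real C with hd
  have hdpos : 0 < d := by
    rw [hd]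
    nlinarith
  have h3 : Tendsto (fun n => ((ρ.real C * ρ.real C + μ.real {x | pos S π n x e = f} * d) -
      ρ.real C * ρ.real C) / d) atTop (𝓝 ((ρ.real C * ρ.real C - ρ.real C * ρ.real C) / d)) :=
    (h2.sub_const _).div_const _
  rw [sub_self, zero_div] at h3
  refine h3.congr fun n => ?_
  field_simp
  ring

end

end Pool.Agent.TH294.RW
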