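import Pool.Agent.TH294.RK.Rect

/-!
# Multiple mixing of skew products from asymptotic independence in the fibres
-/

set_option autoImplicit false

namespace Pool.Agent.TH294.RW

open MeasureTheory Filter Topology H567MM Pool.Agent.TH294.RK

theorem mix_of_pi {Z : Type*} [MeasurableSpace Z] (P : Measure Z) [IsProbabilityMeasure P]
    (T : Z → Z) (hT : MeasurePreserving T P P) (k : ℕ) (C : Set (Set Z))
    (hgen : MeasurableSpace.generateFrom C = ‹MeasurableSpace Z›) (hpi : IsPiSystem C)
    (huniv : Set.univ ∈ C) (hCm : ∀ s ∈ C, MeasurableSet s)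
    (h : ∀ A : Fin (k + 1) → Set Z, (∀ j, A j ∈ C) →
      Tendsto (fun n : Fin (k + 1) → ℕ => P.real (⋂ j, T^[n j] ⁻¹' (A j)))
        (gapF (k + 1)) (𝓝 (∏ j, P.real (A j)))) : MixOrd P T k := by
  classical
  rw [mixOrd_iff _ T hT]
  have key : ∀ i : ℕ, i ≤ k + 1 → ∀ E : Fin (k + 1) → Set Z,
      (∀ j, MeasurableSet (E j)) →
      (∀ j : Fin (k + 1), i ≤ j.val → E j ∈ C) →
      Tendsto (fun n : Fin (k + 1) → ℕ => P.real (⋂ j, T^[n j] ⁻¹' E j)) (gapF (k + 1))
        (𝓝 (∏ j, P.real (E j))) := by
    intro i
    induction i with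
    | zero =>
      intro _ E _ hE
      exact h E (fun j => hE j (Nat.zero_le _))
    | succ i ih =>
      intro hik E hEm hE
      set i0 : Fin (k + 1) := ⟨i, by omega⟩ with hi0
      have hupd : ∀ (s : Set Z) (n : Fin (k + 1) → ℕ),
          (⋂ j, T^[n j] ⁻¹' (Function.update E i0 s) j) =
            T^[n i0] ⁻¹' s ∩ ⋂ j ∈ (Finset.univ.erase i0), T^[n j] ⁻¹' E j := by
        intro s n
        ext z
        simp only [Set.mem_iInter, Set.mem_inter_iff, Set.mem_preimage, Finset.mem_erase,
          Finset.mem_univ, and_true]
        constructor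
        · intro hz
          refine ⟨by simpa using hz i0, fun j hj => ?_⟩
          have := hz j
          rwa [Function.update_of_ne hj] at this
        · rintro ⟨h1, h2⟩ j
          by_cases hj : j = i0
          · subst hj
            simpa using h1
          · rw [Function.update_of_ne hj]
            exact h2 j hj
      have hprod : ∀ s : Set Z, ∏ j, P.real ((Function.update E i0 s) j) =
          (∏ j ∈ Finset.univ.erase i0, P.real (E j)) * P.real s := by
        intro s
        rw [← Finset.mul_prod_erase _ _ (Finset.mem_univ i0), Function.update_self, mul_comm]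
        congr 1
        refine Finset.prod_congr rfl fun j hj => ?_
        rw [Function.update_of_ne (Finset.ne_of_mem_erase hj)]
      set F : (Fin (k + 1) → ℕ) → Measure Z := fun n =>
        (P.restrict (⋂ j ∈ (Finset.univ.erase i0), T^[n j] ⁻¹' E j)).map T^[n i0] with hF
      have hFs : ∀ n s, MeasurableSet s → (F n).real s =
          P.real (⋂ j, T^[n j] ⁻¹' (Function.update E i0 s) j) := by
        intro n s hs
        rw [hF]
        simp only
        rw [map_measureReal_apply (hT.iterate _).measurable hs,
          measureReal_restrict_apply ((hT.iterate _).measurable hs), hupd]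
      have hfin : ∀ n, IsFiniteMeasure (F n) := fun n => by
        rw [hF]; infer_instance
      have hrect : ∀ A : Set Z, A ∈ C →
          Tendsto (fun n => (F n).real A) (gapF (k + 1))
            (𝓝 ((∏ j ∈ Finset.univ.erase i0, P.real (E j)) * P.real A)) := by
        intro A hA
        simp only [hFs _ _ (hCm A hA)]
        rw [← hprod]
        refine ih (by omega) _ (fun j => ?_) (fun j hj => ?_)
        · by_cases hji : j = i0
          · subst hji
            rw [Function.update_self]
            exact hCm A hA
          · rw [Function.update_of_ne hji]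
            exact hEm j
        · by_cases hji : j = i0
          · subst hji
            rw [Function.update_self]
            exact hA
          · rw [Function.update_of_ne hji]
            refine hE j ?_
            have : j.val ≠ i := fun he => hji (Fin.ext he)
            omega
      have := ind_filter P (gapF (k + 1)) F (fun n s hs => by
        rw [hF]
        simp only
        rw [map_measureReal_apply (hT.iterate _).measurable hs,
          measureReal_restrict_apply ((hT.iterate _).measurable hs),
          ← (hT.iterate (n i0)).measureReal_preimage hs.nullMeasurableSet]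
        exact measureReal_mono Set.inter_subset_left) (∏ j ∈ Finset.univ.erase i0, P.real (E j)) C
        hgen hpi (by
          have := hrect Set.univ huniv
          simpa using this) hrect (E i0) (hEm i0)
      simp only [hFs _ _ (hEm i0)] at this
      rw [← hprod, Function.update_eq_self] at this
      exact this
  intro E hE
  exact key (k + 1) le_rfl E hE (fun j hj => absurd j.isLt (by omega))

/-- multiple mixing on the base and asymptotic independence in the fibres -/
theorem fibre_mix {X Y : Type*} [MeasurableSpace X] [MeasurableSpace Y] (μ : Measure X)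
    (ν : Measure Y) [IsProbabilityMeasure μ] [IsProbabilityMeasure ν] (S : X → X)
    (hS : MeasurePreserving S μ μ) (T : X × Y → X × Y)
    (hT : MeasurePreserving T (μ.prod ν) (μ.prod ν)) (hTS : ∀ z, (T z).1 = S z.1) (k : ℕ)
    (hk : MixOrd μ S k) (C : Set (Set Y))
    (hgen : MeasurableSpace.generateFrom C = ‹MeasurableSpace Y›) (hpi : IsPiSystem C)
    (huniv : Set.univ ∈ C) (hCm : ∀ s ∈ C, MeasurableSet s)
    (h : ∀ B : Fin (k + 1) → Set Y, (∀ j, B j ∈ C) → ∀ ε > (0 : ℝ),
      ∃ Bad : (Fin (k + 1) → ℕ) → Set X, (∀ n, MeasurableSet (Bad n)) ∧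
        Tendsto (fun n => μ.real (Bad n)) (gapF (k + 1)) (𝓝 0) ∧
        ∀ᶠ n in gapF (k + 1), ∀ x ∉ Bad n,
          |ν.real {y | ∀ j, (T^[n j] (x, y)).2 ∈ B j} - ∏ j, ν.real (B j)| ≤ ε) :
    MixOrd (μ.prod ν) T k := by
  have hTn : ∀ n z, (T^[n] z).1 = S^[n] z.1 := by
    intro n
    induction n with
    | zero => intro z; rfl
    | succ n ih =>
      intro z
      rw [Function.iterate_succ_apply', Function.iterate_succ_apply', hTS, ih]
  refine mix_of_pi (μ.prod ν) T hT k (Set.image2 (· ×ˢ ·) {s : Set X | MeasurableSet s} C)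
    ?_ ?_ ?_ ?_ ?_
  · refine generateFrom_eq_prod MeasurableSpace.generateFrom_measurableSet hgen ?_ ?_
    · exact isCountablySpanning_measurableSet
    · exact ⟨fun _ => Set.univ, fun _ => huniv, Set.iUnion_const _⟩
  · exact MeasurableSpace.isPiSystem_measurableSet.prod hpi
  · exact ⟨Set.univ, MeasurableSet.univ, Set.univ, huniv, Set.univ_prod_univ⟩
  · rintro _ ⟨A, hA, B, hB, rfl⟩
    exact hA.prod (hCm B hB)
  · intro E hE
    choose A hA B hB e using hE
    simp only [← e]
    rw [mixOrd_iff μ S hS] at hk
    have hbase := hk A hA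
    rw [Metric.tendsto_nhds]
    intro ε hε
    obtain ⟨Bad, hBm, hB0, hgood⟩ := h B hB (ε / 4) (by positivity)
    have h1 := Metric.tendsto_nhds.1 hbase (ε / 4) (by positivity)
    have h2 := Metric.tendsto_nhds.1 hB0 (ε / 4) (by positivity)
    filter_upwards [h1, h2, hgood] with n h1 h2 h3
    have hset : (⋂ j, T^[n j] ⁻¹' (A j ×ˢ B j)) =
        {z : X × Y | (∀ j, S^[n j] z.1 ∈ A j) ∧ ∀ j, (T^[n j] z).2 ∈ B j} := by
      ext z
      simp only [Set.mem_iInter, Set.mem_preimage, Set.mem_prod, hTn, Set.mem_ofPred_eq,
        forall_and]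
    have hmeas : MeasurableSet (⋂ j, T^[n j] ⁻¹' (A j ×ˢ B j)) :=
      MeasurableSet.iInter fun j => (hT.iterate _).measurable ((hA j).prod (hCm _ (hB j)))
    have hm2 : MeasurableSet {z : X × Y | ∀ j, (T^[n j] z).2 ∈ B j} := by
      have : {z : X × Y | ∀ j, (T^[n j] z).2 ∈ B j} = ⋂ j, T^[n j] ⁻¹' (Set.univ ×ˢ B j) := by
        ext z
        simp
      rw [this]
      exact MeasurableSet.iInter fun j => (hT.iterate _).measurable
        (MeasurableSet.univ.prod (hCm _ (hB j)))
    have hAm : MeasurableSet (⋂ j, S^[n j] ⁻¹' A j) :=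
      MeasurableSet.iInter fun j => (hS.iterate _).measurable (hA j)
    set F : X → ℝ := fun x => ν.real {y | ∀ j, (T^[n j] (x, y)).2 ∈ B j} with hF
    have hFm : Measurable F := (measurable_measure_prodMk_left hm2).ennreal_toReal
    have hval : (μ.prod ν).real (⋂ j, T^[n j] ⁻¹' (A j ×ˢ B j)) =
        ∫ x in (⋂ j, S^[n j] ⁻¹' A j), F x ∂μ := by
      rw [measureReal_def, Measure.prod_apply hmeas, ← integral_indicator hAm,
        integral_eq_lintegral_of_nonneg_ae]
      · congr 1
        refine lintegral_congr fun x => ?_
        by_cases hx : x ∈ ⋂ j, S^[n j] ⁻¹' A j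
        · rw [Set.indicator_of_mem hx, hF]
          simp only
          rw [ofReal_measureReal]
          congr 1
          rw [hset]
          ext y
          simp only [Set.mem_preimage, Set.mem_ofPred_eq]
          exact and_iff_right (by simpa using hx)
        · rw [Set.indicator_of_notMem hx, ENNReal.ofReal_zero, hset]
          have : (Prod.mk x ⁻¹' {z : X × Y | (∀ j, S^[n j] z.1 ∈ A j) ∧
              ∀ j, (T^[n j] z).2 ∈ B j}) = ∅ := by
            ext y
            simp only [Set.mem_preimage, Set.mem_ofPred_eq, Set.mem_empty_iff_false, iff_false]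
            intro hh
            exact hx (by simpa using hh.1)
          rw [this, measure_empty]
      · exact Eventually.of_forall fun x =>
          Set.indicator_nonneg (fun _ _ => measureReal_nonneg) x
      · exact (hFm.indicator hAm).aestronglyMeasurable
    have hFint : Integrable F μ := by
      refine Integrable.of_bound hFm.aestronglyMeasurable 1 (Eventually.of_forall fun x => ?_)
      rw [Real.norm_eq_abs, abs_of_nonneg measureReal_nonneg]
      exact measureReal_le_one
    set c : ℝ := ∏ j, ν.real (B j) with hc
    have hc0 : 0 ≤ c := Finset.prod_nonneg fun j _ => measureReal_nonneg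
    have hc1 : c ≤ 1 := Finset.prod_le_one (fun j _ => measureReal_nonneg)
      (fun j _ => measureReal_le_one)
    have hconst : ∫ x in (⋂ j, S^[n j] ⁻¹' A j), c ∂μ = μ.real (⋂ j, S^[n j] ⁻¹' A j) * c := by
      rw [setIntegral_const, smul_eq_mul]
    have hdiff : |(∫ x in (⋂ j, S^[n j] ⁻¹' A j), F x ∂μ) - μ.real (⋂ j, S^[n j] ⁻¹' A j) * c| ≤
        ε / 4 + μ.real (Bad n) := by
      rw [← hconst, ← integral_sub hFint.integrableOn (integrable_const c)]
      have hb : ∀ x, |F x - c| ≤ ε / 4 + (Bad n).indicator (fun _ => (1 : ℝ)) x := by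
        intro x
        by_cases hx : x ∈ Bad n
        · rw [Set.indicator_of_mem hx]
          have h5 : 0 ≤ F x := measureReal_nonneg
          have h6 : F x ≤ 1 := measureReal_le_one
          rw [abs_le]
          constructor <;> linarith
        · rw [Set.indicator_of_notMem hx, add_zero]
          exact h3 x hx
      have hbi : Integrable (fun x => ε / 4 + (Bad n).indicator (fun _ => (1 : ℝ)) x) μ :=
        (integrable_const _).add ((integrable_const _).indicator (hBm n))
      calc |∫ x in (⋂ j, S^[n j] ⁻¹' A j), (F x - c) ∂μ|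
          ≤ ∫ x in (⋂ j, S^[n j] ⁻¹' A j), |F x - c| ∂μ := abs_integral_le_integral_abs
        _ ≤ ∫ x in (⋂ j, S^[n j] ⁻¹' A j), (ε / 4 + (Bad n).indicator (fun _ => (1 : ℝ)) x) ∂μ :=
            integral_mono (hFint.sub (integrable_const c)).abs.integrableOn hbi.integrableOn hb
        _ ≤ ∫ x, (ε / 4 + (Bad n).indicator (fun _ => (1 : ℝ)) x) ∂μ :=
            setIntegral_le_integral hbi (Eventually.of_forall fun x =>
              add_nonneg (by positivity) (Set.indicator_nonneg (fun _ _ => zero_le_one) x))
        _ = ε / 4 + μ.real (Bad n) := by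
            rw [integral_add (integrable_const _) ((integrable_const _).indicator (hBm n)),
              integral_indicator (hBm n)]
            simp
    have hprod : ∏ j, (μ.prod ν).real (A j ×ˢ B j) = (∏ j, μ.real (A j)) * c := by
      rw [hc, ← Finset.prod_mul_distrib]
      refine Finset.prod_congr rfl fun j _ => ?_
      rw [measureReal_prod_prod]
    rw [Real.dist_eq, hval, hprod]
    rw [Real.dist_eq] at h1 h2
    rw [sub_zero, abs_of_nonneg measureReal_nonneg] at h2
    have h4 : |μ.real (⋂ j, S^[n j] ⁻¹' A j) * c - (∏ j, μ.real (A j)) * c| ≤ ε / 4 := by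
      rw [← sub_mul, abs_mul, abs_of_nonneg hc0]
      have := abs_nonneg (μ.real (⋂ j, S^[n j] ⁻¹' A j) - ∏ j, μ.real (A j))
      nlinarith
    rw [abs_le] at hdiff h4
    rw [abs_lt]
    constructor <;> linarith [hdiff.1, hdiff.2, h4.1, h4.2]

end Pool.Agent.TH294.RW
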