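import Pool.Agent.TH294.RW.Fib

/-!
# Skew products whose fibre maps belong to a multiply mixing action of an arbitrary countable group
-/

set_option autoImplicit false

namespace Pool.Agent.TH294.RW

open MeasureTheory Filter Topology H567MM Pool.Agent.TH294.RK

/-- The action of the group `G` on `(Y, ν)` is mixing of multiplicity `k`: the correlation of
`g₀⁻¹ B₀, …, g_k⁻¹ B_k` is close to `∏ ν (B_j)` as soon as no `g_j g_i⁻¹` (`i < j`) lies in a
certain finite subset of `G`. -/
def ActMix (G : Type*) {Y : Type*} [Group G] [MulAction G Y] [MeasurableSpace Y] (ν : Measure Y)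
    (k : ℕ) : Prop :=
  ∀ B : Fin (k + 1) → Set Y, (∀ j, MeasurableSet (B j)) → ∀ ε > (0 : ℝ),
    ∃ K : Finset G, ∀ g : Fin (k + 1) → G, (∀ i j, i < j → g j * (g i)⁻¹ ∉ K) →
      |ν.real (⋂ j, (fun y : Y => g j • y) ⁻¹' B j) - ∏ j, ν.real (B j)| < ε

theorem factor_mix {X Y : Type*} [MeasurableSpace X] [MeasurableSpace Y] (μ : Measure X)
    (ν : Measure Y) [IsProbabilityMeasure μ] [IsProbabilityMeasure ν] (S : X → X)
    (hS : MeasurePreserving S μ μ) (T : X × Y → X × Y)
    (hT : MeasurePreserving T (μ.prod ν) (μ.prod ν)) (hTS : ∀ z, (T z).1 = S z.1) (k : ℕ)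
    (hk : MixOrd (μ.prod ν) T k) : MixOrd μ S k := by
  have hTn : ∀ n z, (T^[n] z).1 = S^[n] z.1 := by
    intro n
    induction n with
    | zero => intro z; rfl
    | succ n ih =>
      intro z
      rw [Function.iterate_succ_apply', Function.iterate_succ_apply', hTS, ih]
  rw [mixOrd_iff _ T hT] at hk
  rw [mixOrd_iff _ S hS]
  intro A hA
  have h1 := hk (fun j => A j ×ˢ Set.univ) (fun j => (hA j).prod MeasurableSet.univ)
  have h2 : ∀ n : Fin (k + 1) → ℕ, (μ.prod ν).real (⋂ j, T^[n j] ⁻¹' (A j ×ˢ Set.univ)) =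
      μ.real (⋂ j, S^[n j] ⁻¹' A j) := by
    intro n
    have : (⋂ j, T^[n j] ⁻¹' (A j ×ˢ (Set.univ : Set Y))) =
        (⋂ j, S^[n j] ⁻¹' A j) ×ˢ (Set.univ : Set Y) := by
      ext z
      simp only [Set.mem_iInter, Set.mem_preimage, Set.mem_prod, hTn, Set.mem_univ, and_true]
    rw [this, measureReal_prod_prod]
    simp
  have h3 : ∏ j, (μ.prod ν).real (A j ×ˢ (Set.univ : Set Y)) = ∏ j, μ.real (A j) := by
    refine Finset.prod_congr rfl fun j _ => ?_
    rw [measureReal_prod_prod]
    simp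
  rw [h3] at h1
  exact h1.congr h2

section

variable {X G : Type*} [Group G] (S : X → X) (φ : X → G)

/-- the cocycle generated by `φ` -/
def coc : ℕ → X → G
  | 0, _ => 1
  | n + 1, x => φ (S^[n] x) * coc n x

theorem coc_add (m n : ℕ) (x : X) :
    coc S φ (m + n) x = coc S φ m (S^[n] x) * coc S φ n x := by
  induction m with
  | zero => rw [Nat.zero_add]; simp [coc]
  | succ m ih =>
    rw [show m + 1 + n = (m + n) + 1 by omega, coc, ih, coc, mul_assoc,
      Function.iterate_add_apply]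

theorem walk_eq (n : ℕ) (x : X) :
    (fun z : X × G => (S z.1, φ z.1 * z.2))^[n] (x, 1) = (S^[n] x, coc S φ n x) := by
  induction n with
  | zero => rfl
  | succ n ih => rw [Function.iterate_succ_apply', ih, Function.iterate_succ_apply', coc]

theorem skew_eq {Y : Type*} [MulAction G Y] (n : ℕ) (x : X) (y : Y) :
    (fun z : X × Y => (S z.1, φ z.1 • z.2))^[n] (x, y) = (S^[n] x, coc S φ n x • y) := by
  induction n with
  | zero => simp [coc]
  | succ n ih => rw [Function.iterate_succ_apply', ih, Function.iterate_succ_apply', coc, mul_smul]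

theorem meas_coc [MeasurableSpace X] [Countable G] (μ : Measure X) (hS : MeasurePreserving S μ μ)
    (hφ : ∀ g, MeasurableSet {x | φ x = g}) (n : ℕ) (g : G) :
    MeasurableSet {x | coc S φ n x = g} := by
  induction n generalizing g with
  | zero => simp [coc]
  | succ n ih =>
    have : {x | coc S φ (n + 1) x = g} =
        ⋃ h : G, (S^[n] ⁻¹' {x | φ x = g * h⁻¹}) ∩ {x | coc S φ n x = h} := by
      ext x
      simp only [Set.mem_ofPred_eq, Set.mem_iUnion, Set.mem_inter_iff, Set.mem_preimage, coc]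
      constructor
      · intro h
        exact ⟨coc S φ n x, by rw [← h]; simp, rfl⟩
      · rintro ⟨h, h1, h2⟩
        rw [h1, h2]
        simp
    rw [this]
    exact MeasurableSet.iUnion fun h => ((hS.iterate n).measurable (hφ _)).inter (ih h)

end

theorem skew_mp {X Y G : Type*} [MeasurableSpace X] [MeasurableSpace Y] [Group G]
    [Countable G] [MulAction G Y] (μ : Measure X) [IsProbabilityMeasure μ] (ν : Measure Y)
    [IsProbabilityMeasure ν] (S : X → X) (hS : MeasurePreserving S μ μ)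
    (hU : ∀ g : G, MeasurePreserving (fun y : Y => g • y) ν ν)
    (φ : X → G) (hφ : ∀ g, MeasurableSet {x | φ x = g}) :
    MeasurePreserving (fun z : X × Y => (S z.1, φ z.1 • z.2)) (μ.prod ν) (μ.prod ν) := by
  refine hS.skew_product (g := fun x y => φ x • y) ?_
    (Eventually.of_forall fun x => (hU (φ x)).map_eq)
  intro s hs
  have : (Function.uncurry fun (x : X) (y : Y) => φ x • y) ⁻¹' s =
      ⋃ g : G, {x | φ x = g} ×ˢ ((fun y : Y => g • y) ⁻¹' s) := by
    ext ⟨x, y⟩
    simp only [Set.mem_preimage, Function.uncurry_apply_pair, Set.mem_iUnion, Set.mem_prod,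
      Set.mem_ofPred_eq]
    constructor
    · intro h
      exact ⟨φ x, rfl, h⟩
    · rintro ⟨g, h1, h2⟩
      rw [h1]
      exact h2
  rw [this]
  exact MeasurableSet.iUnion fun g => (hφ g).prod ((hU g).measurable hs)

/-- dispersion implies multiple mixing -/
theorem grp_mix {X Y G : Type*} [MeasurableSpace X] [MeasurableSpace Y] [Group G]
    [Countable G] [MulAction G Y] (μ : Measure X) [IsProbabilityMeasure μ] (ν : Measure Y)
    [IsProbabilityMeasure ν] (S : X → X) (hS : MeasurePreserving S μ μ)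
    (hU : ∀ g : G, MeasurePreserving (fun y : Y => g • y) ν ν) (k : ℕ)
    (hmix : ActMix G ν k)
    (φ : X → G) (hφ : ∀ g, MeasurableSet {x | φ x = g})
    (hk : MixOrd μ S k)
    (hret : ∀ g, Tendsto (fun n => μ.real {x | coc S φ n x = g}) atTop (𝓝 0)) :
    MixOrd (μ.prod ν) (fun z : X × Y => (S z.1, φ z.1 • z.2)) k := by
  classical
  refine fibre_mix μ ν S hS _ (skew_mp μ ν S hS hU φ hφ) (fun z => rfl) k hk
    {s | MeasurableSet s} MeasurableSpace.generateFrom_measurableSet
    MeasurableSpace.isPiSystem_measurableSet MeasurableSet.univ (fun s hs => hs) ?_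
  intro B hB ε hε
  obtain ⟨K, hK⟩ := hmix B hB ε hε
  refine ⟨fun n => ⋃ i : Fin (k + 1), ⋃ j : Fin (k + 1), ⋃ (_ : i < j), ⋃ g ∈ K,
    S^[n i] ⁻¹' {x | coc S φ (n j - n i) x = g}, ?_, ?_, ?_⟩
  · intro n
    refine MeasurableSet.iUnion fun i => MeasurableSet.iUnion fun j => MeasurableSet.iUnion
      fun _ => Finset.measurableSet_biUnion _ fun g _ =>
        (hS.iterate _).measurable (meas_coc S φ μ hS hφ _ _)
  · have hb : ∀ n : Fin (k + 1) → ℕ, μ.real (⋃ i : Fin (k + 1), ⋃ j : Fin (k + 1),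
        ⋃ (_ : i < j), ⋃ g ∈ K, S^[n i] ⁻¹' {x | coc S φ (n j - n i) x = g}) ≤
        ∑ i : Fin (k + 1), ∑ j : Fin (k + 1), if i < j then ∑ g ∈ K,
          μ.real {x | coc S φ (n j - n i) x = g} else 0 := by
      intro n
      refine (measureReal_iUnion_fintype_le _).trans (Finset.sum_le_sum fun i _ => ?_)
      refine (measureReal_iUnion_fintype_le _).trans (Finset.sum_le_sum fun j _ => ?_)
      by_cases hij : i < j
      · rw [if_pos hij]
        simp only [hij, Set.iUnion_true]
        refine (measureReal_biUnion_finset_le _ _).trans (Finset.sum_le_sum fun g _ => ?_)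
        rw [(hS.iterate (n i)).measureReal_preimage
          (meas_coc S φ μ hS hφ _ _).nullMeasurableSet]
      · rw [if_neg hij]
        simp only [hij, Set.iUnion_false, measureReal_empty, le_refl]
    have hlim : Tendsto (fun n : Fin (k + 1) → ℕ =>
        ∑ i : Fin (k + 1), ∑ j : Fin (k + 1), if i < j then ∑ g ∈ K,
          μ.real {x | coc S φ (n j - n i) x = g} else 0) (gapF (k + 1))
        (𝓝 (∑ i : Fin (k + 1), ∑ j : Fin (k + 1), if i < j then ∑ g ∈ K, (0 : ℝ) else 0)) := by
      refine tendsto_finsetSum _ fun i _ => tendsto_finsetSum _ fun j _ => ?_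
      by_cases hij : i < j
      · simp only [if_pos hij]
        refine tendsto_finsetSum _ fun g _ => ?_
        refine (hret g).comp ?_
        rw [(hasBasis_gapF (k + 1)).tendsto_iff atTop_basis]
        intro N _
        refine ⟨N, trivial, fun n hn => ?_⟩
        have := hn i j hij
        simp only [Set.mem_Ici]
        omega
      · simp only [if_neg hij]
        exact tendsto_const_nhds
    simp only [Finset.sum_const_zero, ite_self] at hlim
    exact squeeze_zero (fun n => measureReal_nonneg) hb hlim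
  · refine eventually_gapF.2 ⟨0, fun n hn x hx => ?_⟩
    simp only [Set.mem_iUnion, Set.mem_preimage, not_exists, Set.mem_ofPred_eq] at hx
    have h1 : {y : Y | ∀ j, ((fun z : X × Y => (S z.1, φ z.1 • z.2))^[n j] (x, y)).2 ∈ B j} =
        ⋂ j, (fun y : Y => coc S φ (n j) x • y) ⁻¹' B j := by
      ext y
      simp only [Set.mem_ofPred_eq, Set.mem_iInter, Set.mem_preimage, skew_eq]
    rw [h1]
    refine (hK (fun j => coc S φ (n j) x) ?_).le
    intro i j hij hmem
    have h2 := hn i j hij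
    have h3 : coc S φ (n j) x * (coc S φ (n i) x)⁻¹ = coc S φ (n j - n i) (S^[n i] x) := by
      have := coc_add S φ (n j - n i) (n i) x
      rw [Nat.sub_add_cancel (by omega)] at this
      rw [this]
      simp
    rw [h3] at hmem
    exact hx i j hij _ hmem rfl

/-- mixing implies dispersion, if there are small sets -/
theorem grp_ret {X Y G : Type*} [MeasurableSpace X] [MeasurableSpace Y] [Group G]
    [Countable G] [MulAction G Y] (μ : Measure X) [IsProbabilityMeasure μ] (ν : Measure Y)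
    [IsProbabilityMeasure ν] (S : X → X) (hS : MeasurePreserving S μ μ)
    (hU : ∀ g : G, MeasurePreserving (fun y : Y => g • y) ν ν)
    (φ : X → G) (hφ : ∀ g, MeasurableSet {x | φ x = g})
    (hsmall : ∀ ε > (0 : ℝ), ∃ C : Set Y, MeasurableSet C ∧ 0 < ν.real C ∧ ν.real C < ε)
    (hk : MixOrd (μ.prod ν) (fun z : X × Y => (S z.1, φ z.1 • z.2)) 1) (g : G) :
    Tendsto (fun n => μ.real {x | coc S φ n x = g}) atTop (𝓝 0) := by
  rw [MP_aux_iff] at hk
  rw [Metric.tendsto_atTop]
  intro ε hε
  obtain ⟨C, hCm, hC0, hC⟩ := hsmall (ε / 2) (by positivity)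
  set D : Set Y := (fun y : Y => g • y) ⁻¹' C with hD
  have hDm : MeasurableSet D := (hU g).measurable hCm
  have hDC : ν.real D = ν.real C := (hU g).measureReal_preimage hCm.nullMeasurableSet
  have h1 := hk (Set.univ ×ˢ D) (Set.univ ×ˢ C) (MeasurableSet.univ.prod hDm)
    (MeasurableSet.univ.prod hCm)
  rw [measureReal_prod_prod, measureReal_prod_prod, hDC] at h1
  simp only [probReal_univ, one_mul] at h1
  obtain ⟨N, hN⟩ := Metric.tendsto_atTop.1 h1 (ε / 2 * ν.real C) (by positivity)
  refine ⟨N, fun n hn => ?_⟩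
  have h2 := hN n hn
  rw [Real.dist_eq, abs_lt] at h2
  have h3 : ({x | coc S φ n x = g} ×ˢ D) ⊆ (Set.univ ×ˢ D) ∩
      (fun z : X × Y => (S z.1, φ z.1 • z.2))^[n] ⁻¹' (Set.univ ×ˢ C) := by
    rintro ⟨x, y⟩ ⟨hx, hy⟩
    refine ⟨⟨trivial, hy⟩, ?_⟩
    simp only [Set.mem_ofPred_eq] at hx
    simp only [Set.mem_preimage, skew_eq, Set.mem_prod, Set.mem_univ, true_and, hx]
    exact hy
  have h4 := measureReal_mono (μ := μ.prod ν) h3
  rw [measureReal_prod_prod, hDC] at h4
  rw [Real.dist_eq, sub_zero, abs_of_nonneg measureReal_nonneg]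
  have h5 : μ.real {x | coc S φ n x = g} * ν.real C < ε * ν.real C := by
    calc _ ≤ _ := h4
      _ < ν.real C * ν.real C + ε / 2 * ν.real C := by linarith [h2.2]
      _ ≤ ε / 2 * ν.real C + ε / 2 * ν.real C := by
          have := mul_le_mul_of_nonneg_right hC.le hC0.le
          linarith
      _ = ε * ν.real C := by ring
  exact lt_of_mul_lt_mul_right h5 hC0.le

theorem actMix_two {Y G : Type*} [MeasurableSpace Y] [Group G] [Infinite G]
    [MulAction G Y] (ν : Measure Y) [IsProbabilityMeasure ν]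
    (hU : ∀ g : G, MeasurePreserving (fun y : Y => g • y) ν ν) (k : ℕ) (hk1 : 1 ≤ k)
    (hmix : ActMix G ν k) (A B : Set Y) (hA : MeasurableSet A) (hB : MeasurableSet B)
    (ε : ℝ) (hε : 0 < ε) :
    ∃ g : G, |ν.real (A ∩ (fun y : Y => g • y) ⁻¹' B) - ν.real A * ν.real B| < ε := by
  classical
  obtain ⟨k, rfl⟩ : ∃ l, k = l + 1 := ⟨k - 1, by omega⟩
  set E : Fin (k + 1 + 1) → Set Y := fun j => if j.val = 0 then A else if j.val = 1 then B
    else Set.univ with hE
  obtain ⟨K, hK⟩ := hmix E (fun j => by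
    simp only [hE]
    split_ifs
    · exact hA
    · exact hB
    · exact MeasurableSet.univ) ε hε
  -- a sequence of group elements with pairwise quotients outside `K`
  have hseq : ∀ r : ℕ, ∃ g : ℕ → G, g 0 = 1 ∧ ∀ i j, i < j → j ≤ r → g j * (g i)⁻¹ ∉ K := by
    intro r
    induction r with
    | zero => exact ⟨fun _ => 1, rfl, fun i j hij hj => by omega⟩
    | succ r ih =>
      obtain ⟨g, hg0, hg⟩ := ih
      obtain ⟨h, hh⟩ := Infinite.exists_notMem_finset
        ((Finset.range (r + 1)).biUnion fun i => K.image fun a => a * g i)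
      refine ⟨Function.update g (r + 1) h, by rw [Function.update_of_ne (by omega)]; exact hg0,
        fun i j hij hj => ?_⟩
      by_cases hj1 : j = r + 1
      · subst hj1
        rw [Function.update_self, Function.update_of_ne (by omega)]
        intro hmem
        refine hh (Finset.mem_biUnion.2 ⟨i, Finset.mem_range.2 hij, Finset.mem_image.2
          ⟨_, hmem, ?_⟩⟩)
        simp
      · rw [Function.update_of_ne hj1, Function.update_of_ne (by omega)]
        exact hg i j hij (by omega)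
  obtain ⟨g, hg0, hg⟩ := hseq (k + 1)
  have h1 := hK (fun j => g j.val) (fun i j hij => hg i.val j.val hij (by omega))
  have e1 : (⋂ j : Fin (k + 1 + 1), (fun y : Y => g j.val • y) ⁻¹' E j) =
      A ∩ (fun y : Y => g 1 • y) ⁻¹' B := by
    ext y
    simp only [Set.mem_iInter, Set.mem_preimage, Set.mem_inter_iff]
    constructor
    · intro h
      refine ⟨by simpa [hE, hg0] using h 0, ?_⟩
      have h3 := h 1
      simpa [hE] using h3
    · rintro ⟨h3, h4⟩ j
      by_cases hj : j.val = 0
      · have ea : E j = A := if_pos hj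
        rw [ea, hj, hg0, one_smul]
        exact h3
      · by_cases hj1 : j.val = 1
        · have ea : E j = B := (if_neg hj).trans (if_pos hj1)
          rw [ea, hj1]
          exact h4
        · have ea : E j = Set.univ := (if_neg hj).trans (if_neg hj1)
          rw [ea]
          trivial
  have e2 : ∏ j, ν.real (E j) = ν.real A * ν.real B := by
    rw [Fin.prod_univ_succ, Fin.prod_univ_succ]
    have : ∏ i : Fin k, ν.real (E i.succ.succ) = 1 := by
      refine Finset.prod_eq_one fun i _ => ?_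
      simp [hE]
    rw [this, mul_one]
    simp [hE]
  rw [e1, e2] at h1
  exact ⟨g 1, h1⟩

/-- a nontrivial space with a mixing action of an infinite group has small sets -/
theorem small_sets {Y G : Type*} [MeasurableSpace Y] [Group G] [Infinite G]
    [MulAction G Y] (ν : Measure Y) [IsProbabilityMeasure ν]
    (hU : ∀ g : G, MeasurePreserving (fun y : Y => g • y) ν ν) (k : ℕ) (hk1 : 1 ≤ k)
    (hmix : ActMix G ν k) (C : Set Y) (hC : MeasurableSet C) (h0 : 0 < ν.real C)
    (h1 : ν.real C < 1) (ε : ℝ) (hε : 0 < ε) :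
    ∃ D : Set Y, MeasurableSet D ∧ 0 < ν.real D ∧ ν.real D < ε := by
  set c : ℝ := (1 + ν.real C) / 2 with hc
  have hc1 : c < 1 := by rw [hc]; linarith
  have hc0 : 0 < c := by rw [hc]; linarith
  have key : ∀ n : ℕ, ∃ D : Set Y, MeasurableSet D ∧ 0 < ν.real D ∧ ν.real D ≤ ν.real C ∧
      ν.real D ≤ c ^ n := by
    intro n
    induction n with
    | zero => exact ⟨C, hC, h0, le_rfl, by rw [pow_zero]; exact h1.le⟩
    | succ n ih =>
      obtain ⟨D, hDm, hD0, hDC, hDn⟩ := ih
      have hD1 : ν.real D < 1 := lt_of_le_of_lt hDC h1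
      obtain ⟨g, hg⟩ := actMix_two ν hU k hk1 hmix D D hDm hDm
        (min (ν.real D * ν.real D) (ν.real D * ((1 - ν.real C) / 2)))
        (lt_min (mul_pos hD0 hD0) (mul_pos hD0 (by linarith)))
      rw [abs_lt] at hg
      have h2 := min_le_left (ν.real D * ν.real D) (ν.real D * ((1 - ν.real C) / 2))
      have h3 := min_le_right (ν.real D * ν.real D) (ν.real D * ((1 - ν.real C) / 2))
      have h4 : ν.real (D ∩ (fun y : Y => g • y) ⁻¹' D) ≤ c * ν.real D := by
        have h5 : ν.real D * ν.real D ≤ ν.real C * ν.real D :=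
          mul_le_mul_of_nonneg_right hDC hD0.le
        rw [hc]
        nlinarith [hg.2]
      refine ⟨D ∩ (fun y : Y => g • y) ⁻¹' D, hDm.inter ((hU g).measurable hDm), by linarith [hg.1],
        ?_, ?_⟩
      · exact (measureReal_mono Set.inter_subset_left).trans hDC
      · calc _ ≤ c * ν.real D := h4
          _ ≤ c * c ^ n := mul_le_mul_of_nonneg_left hDn hc0.le
          _ = c ^ (n + 1) := by ring
  obtain ⟨n, hn⟩ := exists_pow_lt_of_lt_one hε hc1
  obtain ⟨D, hDm, hD0, _, hDn⟩ := key n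
  exact ⟨D, hDm, hD0, lt_of_le_of_lt hDn hn⟩

/-- trivial fibres -/
theorem triv_mix {X Y G : Type*} [MeasurableSpace X] [MeasurableSpace Y] [Group G]
    [Countable G] [MulAction G Y] (μ : Measure X) [IsProbabilityMeasure μ] (ν : Measure Y)
    [IsProbabilityMeasure ν] (S : X → X) (hS : MeasurePreserving S μ μ)
    (hU : ∀ g : G, MeasurePreserving (fun y : Y => g • y) ν ν) (k : ℕ)
    (φ : X → G) (hφ : ∀ g, MeasurableSet {x | φ x = g})
    (htriv : ∀ C : Set Y, MeasurableSet C → ν C = 0 ∨ ν C = 1)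
    (hk : MixOrd μ S k) :
    MixOrd (μ.prod ν) (fun z : X × Y => (S z.1, φ z.1 • z.2)) k := by
  refine fibre_mix μ ν S hS _ (skew_mp μ ν S hS hU φ hφ) (fun z => rfl) k hk
    {s | MeasurableSet s} MeasurableSpace.generateFrom_measurableSet
    MeasurableSpace.isPiSystem_measurableSet MeasurableSet.univ (fun s hs => hs) ?_
  intro B hB ε hε
  refine ⟨fun _ => ∅, fun _ => MeasurableSet.empty, by
    simp only [measureReal_empty]; exact tendsto_const_nhds, Eventually.of_forall fun n x _ => ?_⟩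
  have h1 : {y : Y | ∀ j, ((fun z : X × Y => (S z.1, φ z.1 • z.2))^[n j] (x, y)).2 ∈ B j} =
      ⋂ j, (fun y : Y => coc S φ (n j) x • y) ⁻¹' B j := by
    ext y
    simp only [Set.mem_ofPred_eq, Set.mem_iInter, Set.mem_preimage, skew_eq]
  rw [h1]
  have hj : ∀ j, ν ((fun y : Y => coc S φ (n j) x • y) ⁻¹' B j) = ν (B j) := fun j =>
    (hU _).measure_preimage (hB j).nullMeasurableSet
  have hpm : ∀ j, MeasurableSet ((fun y : Y => coc S φ (n j) x • y) ⁻¹' B j) := fun j =>
    (hU _).measurable (hB j)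
  by_cases hall : ∀ j, ν (B j) = 1
  · have e1 : ν (⋂ j, (fun y : Y => coc S φ (n j) x • y) ⁻¹' B j) = 1 := by
      have hae : ∀ᵐ y ∂ν, ∀ j, y ∈ (fun y : Y => coc S φ (n j) x • y) ⁻¹' B j := by
        rw [ae_all_iff]
        intro j
        exact (mem_ae_iff_prob_eq_one (hpm j)).2 (by rw [hj, hall])
      have := (mem_ae_iff_prob_eq_one (MeasurableSet.iInter hpm)).1 (by
        filter_upwards [hae] with y hy
        exact Set.mem_iInter.2 hy)
      exact this
    have e2 : ∀ j, ν.real (B j) = 1 := fun j => by rw [measureReal_def, hall]; simp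
    rw [measureReal_def, e1]
    simp only [e2, Finset.prod_const_one, ENNReal.toReal_one, sub_self, abs_zero]
    exact hε.le
  · push Not at hall
    obtain ⟨j0, hj0⟩ := hall
    have h0 : ν (B j0) = 0 := (htriv _ (hB j0)).resolve_right hj0
    have e1 : ν (⋂ j, (fun y : Y => coc S φ (n j) x • y) ⁻¹' B j) = 0 :=
      measure_mono_null (Set.iInter_subset _ j0) (by rw [hj, h0])
    have e2 : ∏ j, ν.real (B j) = 0 := Finset.prod_eq_zero (Finset.mem_univ j0) (by
      rw [measureReal_def, h0, ENNReal.toReal_zero])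
    rw [measureReal_def, e1, e2]
    simp [hε.le]

/-- **Fibre actions of arbitrary countable groups.** -/
theorem grp_main {X Y G : Type*} [MeasurableSpace X] [MeasurableSpace Y] [Group G]
    [Countable G] [Infinite G] [MulAction G Y] (μ : Measure X) [IsProbabilityMeasure μ]
    (ν : Measure Y) [IsProbabilityMeasure ν] (S : X → X) (hS : MeasurePreserving S μ μ)
    (hU : ∀ g : G, MeasurePreserving (fun y : Y => g • y) ν ν) (k : ℕ) (hk1 : 1 ≤ k)
    (hmix : ActMix G ν k) (φ : X → G) (hφ : ∀ g, MeasurableSet {x | φ x = g}) :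
    (MixOrd (μ.prod ν) (fun z : X × Y => (S z.1, φ z.1 • z.2)) k ↔
      MixOrd μ S k ∧ MixOrd (μ.prod ν) (fun z : X × Y => (S z.1, φ z.1 • z.2)) 1) ∧
    (MixOrd μ S k → (∃ C : Set Y, MeasurableSet C ∧ ν C ≠ 0 ∧ ν C ≠ 1) →
      (MixOrd (μ.prod ν) (fun z : X × Y => (S z.1, φ z.1 • z.2)) 1 ↔
        ∀ g : G, Tendsto (fun n : ℕ => μ.real
          {x | ((fun z : X × G => (S z.1, φ z.1 * z.2))^[n] (x, 1)).2 = g}) atTop (𝓝 0))) := by
  have hT := skew_mp μ ν S hS hU φ hφ
  have hone : MixOrd (μ.prod ν) (fun z : X × Y => (S z.1, φ z.1 • z.2)) k →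
      MixOrd (μ.prod ν) (fun z : X × Y => (S z.1, φ z.1 • z.2)) 1 := by
    intro h
    obtain ⟨l, rfl⟩ : ∃ l, k = l + 1 := ⟨k - 1, by omega⟩
    exact mixOrd_one_of _ _ hT l h
  have hsmall : (∃ C : Set Y, MeasurableSet C ∧ ν C ≠ 0 ∧ ν C ≠ 1) →
      ∀ ε > (0 : ℝ), ∃ C : Set Y, MeasurableSet C ∧ 0 < ν.real C ∧ ν.real C < ε := by
    rintro ⟨C, hC, h0, h1⟩ ε hε
    refine small_sets ν hU k hk1 hmix C hC ?_ ?_ ε hε
    · rw [measureReal_def]
      exact ENNReal.toReal_pos h0 (measure_ne_top _ _)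
    · rw [measureReal_def, ← ENNReal.toReal_one]
      exact ENNReal.toReal_strict_mono ENNReal.one_ne_top (lt_of_le_of_ne prob_le_one h1)
  simp only [walk_eq]
  refine ⟨⟨fun h => ⟨factor_mix μ ν S hS _ hT (fun z => rfl) k h, hone h⟩, ?_⟩, ?_⟩
  · rintro ⟨hk, h⟩
    by_cases hnt : ∃ C : Set Y, MeasurableSet C ∧ ν C ≠ 0 ∧ ν C ≠ 1
    · exact grp_mix μ ν S hS hU k hmix φ hφ hk fun g =>
        grp_ret μ ν S hS hU φ hφ (hsmall hnt) h g
    · push Not at hnt
      refine triv_mix μ ν S hS hU k φ hφ (fun C hC => ?_) hk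
      by_cases h0 : ν C = 0
      · exact Or.inl h0
      · exact Or.inr (hnt C hC h0)
  · intro hk hnt
    refine ⟨fun h g => grp_ret μ ν S hS hU φ hφ (hsmall hnt) h g, fun h => ?_⟩
    exact hone (grp_mix μ ν S hS hU k hmix φ hφ hk h)

end Pool.Agent.TH294.RW
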